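import Pool.Agent.W559.Wr.StmR

set_option autoImplicit false

/-!
# The invariants of a product of groups on a product of algebras
-/

open TensorProduct

universe u

namespace Pool.Agent.W460.Wr

open Pool.Agent.W559.Wr

variable {k M : Type u} [Field k] [Field M] [Algebra k M]

theorem mulM_tprod {J : Type} [Fintype J] {K : J → Type u} [∀ j, Field (K j)]
    [∀ j, Algebra k (K j)] (e : ∀ j, K j →ₐ[k] M) (x : ∀ j, K j) :
    mulM e (PiTensorProduct.tprod k x) = ∏ j, e j (x j) := by
  rw [mulM, PiTensorProduct.lift.tprod]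
  rfl

/-- the algebra generated by the fields `L i` is spanned by the products of basis elements -/
theorem sup_le_span {J : Type} [Fintype J] [DecidableEq J] (L : J → IntermediateField k M)
    (κ : J → Type u) (b : ∀ i, Module.Basis (κ i) k (L i)) :
    Subalgebra.toSubmodule (⨆ i, (L i).toSubalgebra) ≤
      Submodule.span k (Set.range fun s : ∀ i, κ i => ∏ i, (b i (s i) : M)) := by
  let f : MultilinearMap k (fun i => L i) M :=
    (MultilinearMap.mkPiAlgebra k J M).compLinearMap fun i => (L i).val.toLinearMap
  have hf : ∀ x : ∀ i, L i, f x = ∏ i, (x i : M) := fun x => rfl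
  let p : (⨂[k] i, L i) →ₐ[k] M := PiTensorProduct.liftAlgHom f
    (by rw [hf]; exact Finset.prod_eq_one fun i _ => rfl)
    (fun x y => by
      rw [hf, hf, hf, ← Finset.prod_mul_distrib]
      exact Finset.prod_congr rfl fun i _ => rfl)
  have hp : ∀ x : ∀ i, L i, p (PiTensorProduct.tprod k x) = ∏ i, (x i : M) := by
    intro x
    have : p (PiTensorProduct.tprod k x) = PiTensorProduct.lift f (PiTensorProduct.tprod k x) := rfl
    rw [this, PiTensorProduct.lift.tprod, hf]
  have h1 : (⨆ i, (L i).toSubalgebra) ≤ p.range := by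
    refine iSup_le fun i x hx => ?_
    refine ⟨PiTensorProduct.tprod k (Pi.mulSingle i (⟨x, hx⟩ : L i)), ?_⟩
    have : p (PiTensorProduct.tprod k (Pi.mulSingle i (⟨x, hx⟩ : L i))) = x := by
      rw [hp, Finset.prod_eq_single i]
      · rw [Pi.mulSingle_eq_same]
      · intro j _ hj
        rw [Pi.mulSingle_eq_of_ne hj]
        rfl
      · intro h
        exact absurd (Finset.mem_univ i) h
    exact this
  intro x hx
  obtain ⟨t, ht⟩ := h1 hx
  have h2 : t ∈ (⊤ : Submodule k (⨂[k] i, L i)) := Submodule.mem_top
  rw [← (Basis.piTensorProduct b).span_eq] at h2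
  have h3 := Submodule.mem_map_of_mem (f := p.toLinearMap) h2
  rw [Submodule.map_span, ← Set.range_comp] at h3
  have h4 : (p.toLinearMap ∘ (Basis.piTensorProduct b)) =
      fun s : ∀ i, κ i => ∏ i, (b i (s i) : M) := by
    funext s
    rw [Function.comp_apply, Basis.piTensorProduct_apply]
    exact hp _
  rw [h4] at h3
  have h5 : p.toLinearMap t = x := ht
  rwa [h5] at h3

/-- linear disjointness of `L j` and the algebra generated by the others -/
theorem disj {J : Type} [Fintype J] (L : J → IntermediateField k M)
    (h : LDis (fun j => (L j).val)) (j : J) :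
    (Subalgebra.toSubmodule (⨆ i : {i // i ≠ j}, (L i).toSubalgebra)).LinearDisjoint
      (Subalgebra.toSubmodule (L j).toSubalgebra) := by
  classical
  let κ : J → Type u := fun i => Module.Basis.ofVectorSpaceIndex k (L i)
  let b : ∀ i, Module.Basis (κ i) k (L i) := fun i => Module.Basis.ofVectorSpace k (L i)
  have hF : LinearIndependent k (fun s : ∀ i, κ i => ∏ i, (b i (s i) : M)) := by
    have h1 := (Basis.piTensorProduct b).linearIndependent.map' (mulM fun j => (L j).val)
      (LinearMap.ker_eq_bot.2 h)
    have h2 : ((mulM fun j => (L j).val) ∘ (Basis.piTensorProduct b)) =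
        fun s : ∀ i, κ i => ∏ i, (b i (s i) : M) := by
      funext s
      rw [Function.comp_apply, Basis.piTensorProduct_apply, mulM_tprod]
      rfl
    rwa [h2] at h1
  let m : (∀ i : {i // i ≠ j}, κ i) → M := fun s => ∏ i : {i // i ≠ j}, (b i (s i) : M)
  have hG : LinearIndependent k (fun st : (∀ i : {i // i ≠ j}, κ i) × κ j =>
      m st.1 * (b j st.2 : M)) := by
    have h1 := hF.comp (fun st : (∀ i : {i // i ≠ j}, κ i) × κ j =>
      (Equiv.piSplitAt j κ).symm (st.2, st.1)) (by
        intro x y hxy
        have := (Equiv.piSplitAt j κ).symm.injective hxy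
        rw [Prod.mk.injEq] at this
        exact Prod.ext this.2 this.1)
    have h2 : ((fun s : ∀ i, κ i => ∏ i, (b i (s i) : M)) ∘
        (fun st : (∀ i : {i // i ≠ j}, κ i) × κ j => (Equiv.piSplitAt j κ).symm (st.2, st.1))) =
        fun st : (∀ i : {i // i ≠ j}, κ i) × κ j => m st.1 * (b j st.2 : M) := by
      funext st
      rw [Function.comp_apply, Fintype.prod_eq_mul_prod_subtype_ne _ j, mul_comm]
      congr 1
      · refine Finset.prod_congr rfl fun i _ => ?_
        have : (Equiv.piSplitAt j κ).symm (st.2, st.1) i = st.1 i := by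
          rw [Equiv.piSplitAt_symm_apply, dif_neg i.2]
        rw [this]
      · have : (Equiv.piSplitAt j κ).symm (st.2, st.1) j = st.2 := by
          rw [Equiv.piSplitAt_symm_apply, dif_pos rfl]
        rw [this]
    rwa [h2] at h1
  have hne : Nonempty (κ j) := (b j).index_nonempty
  obtain ⟨t0⟩ := hne
  have hm : LinearIndependent k m := by
    have h1 : LinearIndependent k (fun s : (∀ i : {i // i ≠ j}, κ i) => m s * (b j t0 : M)) :=
      hG.comp (fun s => (s, t0)) fun x y hxy => (Prod.mk.inj hxy).1
    exact LinearIndependent.of_comp (LinearMap.mulRight k (b j t0 : M)) h1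
  have key : (Submodule.span k (Set.range m)).LinearDisjoint
      (Subalgebra.toSubmodule (L j).toSubalgebra) := by
    refine Submodule.LinearDisjoint.of_basis_mul _ _ (Module.Basis.span hm) (b j) ?_
    have h1 : (fun st : (∀ i : {i // i ≠ j}, κ i) × κ j =>
        ((Module.Basis.span hm st.1 : Submodule.span k (Set.range m)) : M) * (b j st.2 : M)) =
        fun st : (∀ i : {i // i ≠ j}, κ i) × κ j => m st.1 * (b j st.2 : M) := by
      funext st
      rw [Module.Basis.span_apply]
    have h2 := hG
    rw [← h1] at h2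
    exact h2
  exact key.of_le_left_of_flat (sup_le_span (fun i : {i // i ≠ j} => L i)
    (fun i : {i // i ≠ j} => κ i) (fun i : {i // i ≠ j} => b i))

/-- one factor -/
theorem step (C D L : Subalgebra k M)
    (h : (Subalgebra.toSubmodule C).LinearDisjoint (Subalgebra.toSubmodule L)) (hDL : D ≤ L)
    (G : Subgroup (M ≃ₐ[k] M)) (hD : ∀ σ ∈ G, ∀ x ∈ D, σ x ∈ D)
    (hC : ∀ σ ∈ G, ∀ x ∈ C, σ x = x) (x : M) (hx : x ∈ C ⊔ D) (hσ : ∀ σ ∈ G, σ x = x) :
    x ∈ C ⊔ (D ⊓ (IntermediateField.fixedField G).toSubalgebra) := by
  classical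
  let c := Module.Basis.ofVectorSpace k (Subalgebra.toSubmodule C)
  have hker := h.linearIndependent_left_of_flat c.linearIndependent
  have hrange : Subalgebra.toSubmodule (C ⊔ D) ≤
      LinearMap.range (Submodule.mulLeftMap (Subalgebra.toSubmodule D) (fun i => c i)) := by
    rw [← Subalgebra.mul_toSubmodule]
    refine Submodule.mul_le.2 fun a ha d hd => ?_
    have ha2 : (⟨a, ha⟩ : Subalgebra.toSubmodule C) ∈
      (⊤ : Submodule k (Subalgebra.toSubmodule C)) := Submodule.mem_top
    rw [← c.span_eq] at ha2
    have : ∀ z ∈ Submodule.span k (Set.range c), (z : M) * d ∈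
        LinearMap.range (Submodule.mulLeftMap (Subalgebra.toSubmodule D) (fun i => c i)) := by
      intro z hz
      induction hz using Submodule.span_induction with
      | mem z hz =>
        obtain ⟨i, rfl⟩ := hz
        refine ⟨Finsupp.single i ⟨d, hd⟩, ?_⟩
        rw [Submodule.mulLeftMap_apply_single]
      | zero =>
        rw [ZeroMemClass.coe_zero, zero_mul]
        exact Submodule.zero_mem _
      | add y z _ _ h1 h2 =>
        rw [Submodule.coe_add, add_mul]
        exact Submodule.add_mem _ h1 h2
      | smul r z _ h1 =>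
        rw [Submodule.coe_smul, smul_mul_assoc]
        exact Submodule.smul_mem _ r h1
    exact this _ ha2
  obtain ⟨f, hf⟩ := hrange hx
  rw [Submodule.mulLeftMap_apply] at hf
  have hfix : ∀ σ ∈ G, ∀ i, σ (f i : M) = f i := by
    intro σ hs
    let g : _ →₀ (Subalgebra.toSubmodule L) := f.mapRange
      (fun y : Subalgebra.toSubmodule D => (⟨σ (y : M) - y, by
        exact Submodule.sub_mem _ (hDL (hD σ hs y y.2)) (hDL y.2)⟩ : Subalgebra.toSubmodule L)) (by
        apply Subtype.ext
        change σ (0 : M) - 0 = 0
        rw [map_zero, sub_zero])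
    have hg : Submodule.mulLeftMap (Subalgebra.toSubmodule L) (fun i => c i) g = 0 := by
      rw [Submodule.mulLeftMap_apply]
      rw [Finsupp.sum_mapRange_index (fun i => by
        rw [ZeroMemClass.coe_zero, mul_zero])]
      have e1 : σ x - x = 0 := by rw [hσ σ hs, sub_self]
      rw [← e1, ← hf, Finsupp.sum, Finsupp.sum, map_sum, ← Finset.sum_sub_distrib]
      refine Finset.sum_congr rfl fun i _ => ?_
      have e2 : σ ((c i : Subalgebra.toSubmodule C) : M) = (c i : M) := hC σ hs _ (c i).2
      rw [map_mul, e2, ← mul_sub]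
    have hg0 : g = 0 := by
      have : g ∈ LinearMap.ker (Submodule.mulLeftMap (Subalgebra.toSubmodule L)
        (fun i => c i)) := hg
      rw [hker] at this
      exact this
    intro i
    have h1 : g i = 0 := by rw [hg0]; rfl
    rw [Finsupp.mapRange_apply] at h1
    have h2 := congrArg Subtype.val h1
    exact sub_eq_zero.1 h2
  rw [← hf, Finsupp.sum]
  refine Subalgebra.sum_mem _ fun i _ => ?_
  refine Subalgebra.mul_mem _ ((le_sup_left : C ≤ _) (c i).2) ?_
  refine (le_sup_right : _ ≤ C ⊔ (D ⊓ (IntermediateField.fixedField G).toSubalgebra)) ⟨(f i).2, ?_⟩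
  rintro ⟨σ, hs⟩
  exact hfix σ hs i

/-- The invariants of a product of groups on a product of algebras. -/
theorem inv : InvStm.{u} := by
  intro k M _ _ _ J _ G L hL D hDL hGD hfix x hx hσ
  classical
  have key : ∀ S : Finset J, x ∈ ⨆ j, (if j ∈ S then
      D j ⊓ (IntermediateField.fixedField (G j)).toSubalgebra else D j) := by
    intro S
    induction S using Finset.induction_on with
    | empty =>
      refine (iSup_mono fun j => ?_ : (⨆ j, D j) ≤ _) hx
      rw [if_neg (Finset.notMem_empty j)]
    | insert j S hj ih =>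
      rw [iSup_split_single _ j, if_neg hj, sup_comm] at ih
      rw [iSup_split_single _ j, if_pos (Finset.mem_insert_self j S), sup_comm]
      have hC : (⨆ (i) (_ : i ≠ j), (if i ∈ S then
          D i ⊓ (IntermediateField.fixedField (G i)).toSubalgebra else D i)) ≤
          ⨆ (i) (_ : i ≠ j), (if i ∈ insert j S then
          D i ⊓ (IntermediateField.fixedField (G i)).toSubalgebra else D i) := by
        refine iSup₂_mono fun i hi => ?_
        by_cases hiS : i ∈ S
        · rw [if_pos hiS, if_pos (Finset.mem_insert_of_mem hiS)]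
        · rw [if_neg hiS, if_neg (fun h => hiS ((Finset.mem_insert.1 h).resolve_left hi))]
      have hA : ∀ i, (if i ∈ S then
          D i ⊓ (IntermediateField.fixedField (G i)).toSubalgebra else D i) ≤
          (L i).toSubalgebra := by
        intro i
        split_ifs
        · exact fun y hy => hDL i y hy.1
        · exact fun y hy => hDL i y hy
      have hCL : (⨆ (i) (_ : i ≠ j), (if i ∈ S then
          D i ⊓ (IntermediateField.fixedField (G i)).toSubalgebra else D i)) ≤
          ⨆ i : {i // i ≠ j}, (L i).toSubalgebra :=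
        iSup₂_le fun i hi => (hA i).trans (le_iSup (fun i : {i // i ≠ j} => (L i).toSubalgebra)
          ⟨i, hi⟩)
      have hCF : (⨆ (i) (_ : i ≠ j), (if i ∈ S then
          D i ⊓ (IntermediateField.fixedField (G i)).toSubalgebra else D i)) ≤
          (IntermediateField.fixedField (G j)).toSubalgebra := by
        refine iSup₂_le fun i hi => (hA i).trans fun y hy => ?_
        rintro ⟨σ, hs⟩
        exact hfix j i hi.symm σ hs y hy
      refine (sup_le_sup_right hC _) (step _ (D j) (L j).toSubalgebra
        ((disj L hL j).of_le_left_of_flat hCL) (fun y hy => hDL j y hy) (G j) (hGD j) ?_ x ih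
        (hσ j))
      intro σ hs y hy
      exact hCF hy ⟨σ, hs⟩
  have h1 := key Finset.univ
  refine (iSup_mono fun j => ?_ : _ ≤ ⨆ j, D j ⊓
    (IntermediateField.fixedField (G j)).toSubalgebra) h1
  rw [if_pos (Finset.mem_univ j)]

end Pool.Agent.W460.Wr
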